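import Pool.Agent.Helper80K2.Msp

/-!
The general lower bound: a system of linear equations over `ZMod q` (`q` prime) is turned into
graphs; span programs separating large cliques from small ones must be large.
-/

namespace Pool.Agent.Helper80K2

open Finset

section Char

variable {K : Type*} [Field K] {q : ℕ} [Fact q.Prime]

theorem char_ne_one {ψ : AddChar (ZMod q) K} (hψ : ψ 1 ≠ 1) {r : ZMod q} (hr : r ≠ 0) :
    ψ r ≠ 1 := by
  intro h
  apply hψ
  have h1 : ((r⁻¹).val) • r = (1 : ZMod q) := by
    rw [nsmul_eq_mul, ZMod.natCast_zmod_val, inv_mul_cancel₀ hr]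
  rw [← h1, AddChar.map_nsmul_eq_pow, h, one_pow]

theorem char_sum {ι : Type*} (ψ : AddChar (ZMod q) K) (S : Finset ι) (f : ι → ZMod q) :
    ψ (∑ i ∈ S, f i) = ∏ i ∈ S, ψ (f i) := by
  classical
  induction S using Finset.induction_on with
  | empty => simp
  | insert i S hi ih =>
    rw [Finset.sum_insert hi, Finset.prod_insert hi, AddChar.map_add_eq_mul, ih]

end Char

variable {E I P : Type} [Fintype E] [DecidableEq E] [Fintype I] [DecidableEq I]
  [Fintype P] [DecidableEq P] {q : ℕ} [Fact q.Prime] {m : ℕ}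

/-- The inner product of `y` with column `e`. -/
def pr (z : E → I → ZMod q) (y : I → ZMod q) (e : E) : ZMod q := ∑ i, y i * z e i

/-- The support. -/
def spt (y : I → ZMod q) : Finset I := univ.filter (fun i => y i ≠ 0)

variable {K : Type*} [Field K]

/-- The elementary term. -/
def Tm (ψ : AddChar (ZMod q) K) (z : E → I → ZMod q) (b : I → ZMod q) (y : I → ZMod q)
    (u : E → Fin (m + 1)) (c : E → Fin (m + 1) → ZMod q) : K :=
  ψ (-∑ i, y i * b i) * ∏ e, ψ ((1 + pr z y e) * c e (u e))

/-- The matrix. -/
def Am (ψ : AddChar (ZMod q) K) (z : E → I → ZMod q) (b : I → ZMod q) (τ : ℕ)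
    (u : E → Fin (m + 1)) (c : E → Fin (m + 1) → ZMod q) : K :=
  ∑ y ∈ univ.filter (fun y : I → ZMod q => (spt y).card ≤ τ), Tm ψ z b y u c

omit [Fintype E] [DecidableEq E] in
theorem pr_add_single (z : E → I → ZMod q) (y : I → ZMod q) (i : I) (e : E) :
    pr z (y + Pi.single i 1) e = pr z y e + z e i := by
  unfold pr
  simp only [Pi.add_apply, add_mul, Finset.sum_add_distrib]
  congr 1
  rw [Finset.sum_eq_single i]
  · simp
  · intro j _ hj
    simp [hj]
  · simp

theorem Tm_shift (ψ : AddChar (ZMod q) K) (z : E → I → ZMod q) (b : I → ZMod q) (y : I → ZMod q)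
    (u : E → Fin (m + 1)) (c : E → Fin (m + 1) → ZMod q) (i : I) :
    Tm ψ z b (y + Pi.single i 1) u c =
      ψ (∑ e, z e i * c e (u e) - b i) * Tm ψ z b y u c := by
  unfold Tm
  have h1 : (-∑ j, (y + Pi.single i 1 : I → ZMod q) j * b j) = -∑ j, y j * b j + (-b i) := by
    have : ∑ j, (y + Pi.single i 1 : I → ZMod q) j * b j = ∑ j, y j * b j + b i := by
      simp only [Pi.add_apply, add_mul, Finset.sum_add_distrib]
      congr 1
      rw [Finset.sum_eq_single i]
      · simp
      · intro j _ hj
        simp [hj]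
      · simp
    rw [this]; ring
  have h2 : ∏ e, ψ ((1 + pr z (y + Pi.single i 1) e) * c e (u e)) =
      (∏ e, ψ ((1 + pr z y e) * c e (u e))) * ψ (∑ e, z e i * c e (u e)) := by
    rw [char_sum, ← Finset.prod_mul_distrib]
    refine Finset.prod_congr rfl fun e _ => ?_
    rw [← AddChar.map_add_eq_mul, pr_add_single]
    congr 1; ring
  rw [h1, h2, AddChar.map_add_eq_mul, sub_eq_add_neg, AddChar.map_add_eq_mul]
  ring

theorem sum_shift_zero (ψ : AddChar (ZMod q) K) (hψ : ψ 1 ≠ 1) (z : E → I → ZMod q)
    (b : I → ZMod q) (τ : ℕ) (u : E → Fin (m + 1)) (c : E → Fin (m + 1) → ZMod q) (i : I)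
    (hi : ∑ e, z e i * c e (u e) ≠ b i) :
    ∑ y ∈ univ.filter (fun y : I → ZMod q => ((spt y).erase i).card < τ), Tm ψ z b y u c = 0 := by
  set S := ∑ y ∈ univ.filter (fun y : I → ZMod q => ((spt y).erase i).card < τ), Tm ψ z b y u c
    with hS
  have hr : ψ (∑ e, z e i * c e (u e) - b i) ≠ 1 := char_ne_one hψ (sub_ne_zero.mpr hi)
  have hinv : ∀ y : I → ZMod q, (spt (y + Pi.single i 1)).erase i = (spt y).erase i := by
    intro y
    ext j
    simp only [Finset.mem_erase, spt, Finset.mem_filter, Finset.mem_univ, true_and]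
    constructor
    · rintro ⟨h1, h2⟩
      refine ⟨h1, ?_⟩
      simpa [Pi.single_apply, h1] using h2
    · rintro ⟨h1, h2⟩
      refine ⟨h1, ?_⟩
      simpa [Pi.single_apply, h1] using h2
  have hbij : S = ∑ y ∈ univ.filter (fun y : I → ZMod q => ((spt y).erase i).card < τ),
      Tm ψ z b (y + Pi.single i 1) u c := by
    rw [hS]
    symm
    refine Finset.sum_bij (fun y _ => y + Pi.single i 1) ?_ ?_ ?_ ?_
    · intro y hy
      simp only [Finset.mem_filter, Finset.mem_univ, true_and] at hy ⊢
      rw [hinv]; exact hy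
    · intro y _ y' _ h
      exact add_right_cancel h
    · intro y hy
      refine ⟨y - Pi.single i 1, ?_, by simp⟩
      simp only [Finset.mem_filter, Finset.mem_univ, true_and] at hy ⊢
      rw [← hinv (y - Pi.single i 1)]
      simpa using hy
    · intro y _; rfl
  have h3 : S = ψ (∑ e, z e i * c e (u e) - b i) * S := by
    conv_lhs => rw [hbij]
    rw [hS, Finset.mul_sum]
    exact Finset.sum_congr rfl fun y _ => Tm_shift ψ z b y u c i
  have h4 : (1 - ψ (∑ e, z e i * c e (u e) - b i)) * S = 0 := by
    rw [sub_mul, one_mul, ← h3, sub_self]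
  rcases mul_eq_zero.mp h4 with h | h
  · exact absurd (sub_eq_zero.mp h).symm hr
  · exact h

/-- On rows and columns violating constraint `i`, only top-level terms survive. -/
theorem Am_eq (ψ : AddChar (ZMod q) K) (hψ : ψ 1 ≠ 1) (z : E → I → ZMod q)
    (b : I → ZMod q) (τ : ℕ) (u : E → Fin (m + 1)) (c : E → Fin (m + 1) → ZMod q) (i : I)
    (hi : ∑ e, z e i * c e (u e) ≠ b i) :
    Am ψ z b τ u c =
      ∑ y ∈ univ.filter (fun y : I → ZMod q => (spt y).card = τ ∧ y i = 0), Tm ψ z b y u c := by
  unfold Am
  have hsplit : univ.filter (fun y : I → ZMod q => (spt y).card ≤ τ) =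
      univ.filter (fun y : I → ZMod q => ((spt y).erase i).card < τ) ∪
      univ.filter (fun y : I → ZMod q => (spt y).card = τ ∧ y i = 0) := by
    ext y
    simp only [Finset.mem_filter, Finset.mem_univ, true_and, Finset.mem_union]
    by_cases hy : y i = 0
    · have : (spt y).erase i = spt y := by
        apply Finset.erase_eq_of_notMem
        simp [spt, hy]
      rw [this]
      constructor
      · intro h
        rcases lt_or_eq_of_le h with h | h
        · exact Or.inl h
        · exact Or.inr ⟨h, hy⟩
      · rintro (h | h)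
        · exact h.le
        · exact h.1.le
    · have hmem : i ∈ spt y := by simp [spt, hy]
      have := Finset.card_erase_add_one hmem
      constructor
      · intro h
        left; omega
      · rintro (h | h)
        · omega
        · exact absurd h.2 hy
  have hdisj : Disjoint (univ.filter (fun y : I → ZMod q => ((spt y).erase i).card < τ))
      (univ.filter (fun y : I → ZMod q => (spt y).card = τ ∧ y i = 0)) := by
    rw [Finset.disjoint_filter]
    rintro y _ h ⟨h1, h2⟩
    have : (spt y).erase i = spt y := by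
      apply Finset.erase_eq_of_notMem
      simp [spt, h2]
    rw [this] at h
    omega
  rw [hsplit, Finset.sum_union hdisj, sum_shift_zero ψ hψ z b τ u c i hi, zero_add]

/-- The rank of a top-level term. -/
theorem rank_Tm_le (ψ : AddChar (ZMod q) K) (z : E → I → ZMod q)
    (b : I → ZMod q) (y : I → ZMod q) (g : ℕ)
    (hg : g ≤ (univ.filter (fun e => pr z y e = -1)).card) :
    (Matrix.of fun (u : E → Fin (m + 1)) (c : E → Fin (m + 1) → ZMod q) =>
      Tm ψ z b y u c).rank ≤ (m + 1) ^ (Fintype.card E - g) := by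
  classical
  set F := {e : E // pr z y e ≠ -1} with hF
  let M1 : Matrix (E → Fin (m + 1)) (F → Fin (m + 1)) K :=
    Matrix.of fun u v => if (fun e : F => u e) = v then 1 else 0
  let M2 : Matrix (F → Fin (m + 1)) (E → Fin (m + 1) → ZMod q) K :=
    Matrix.of fun v c => ψ (-∑ i, y i * b i) * ∏ e : F, ψ ((1 + pr z y e) * c e (v e))
  have hmul : (Matrix.of fun (u : E → Fin (m + 1)) (c : E → Fin (m + 1) → ZMod q) =>
      Tm ψ z b y u c) = M1 * M2 := by
    ext u c
    rw [Matrix.mul_apply, Finset.sum_eq_single (fun e : F => u e)]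
    · simp only [M1, M2, Matrix.of_apply, if_true, one_mul]
      unfold Tm
      congr 1
      have hsub : ∏ e : F, ψ ((1 + pr z y e) * c e (u e)) =
          ∏ e ∈ univ.filter (fun e => pr z y e ≠ -1), ψ ((1 + pr z y e) * c e (u e)) := by
        rw [← Finset.prod_subtype (univ.filter (fun e => pr z y e ≠ -1)) (by simp)
          (fun e => ψ ((1 + pr z y e) * c e (u e)))]
      rw [hsub, Finset.prod_filter]
      refine Finset.prod_congr rfl fun e _ => ?_
      by_cases he : pr z y e = -1
      · simp [he]
      · simp [he]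
    · intro v _ hv
      simp only [M1, Matrix.of_apply]
      rw [if_neg (Ne.symm hv), zero_mul]
    · simp
  rw [hmul]
  refine (Matrix.rank_mul_le_left _ _).trans ?_
  refine (Matrix.rank_le_card_width _).trans ?_
  rw [Fintype.card_fun, Fintype.card_fin]
  apply Nat.pow_le_pow_right (Nat.succ_pos m)
  have : Fintype.card F = Fintype.card E - (univ.filter (fun e => pr z y e = -1)).card := by
    have hF2 : Fintype.card F = (univ.filter (fun e => pr z y e ≠ -1)).card :=
      Fintype.card_subtype _
    rw [hF2]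
    have := Finset.card_filter_add_card_filter_not (s := (univ : Finset E))
      (fun e => pr z y e = -1)
    rw [Finset.card_univ] at this
    simp only [ne_eq]
    omega
  rw [this]
  omega

/-- Rank of one row of the certificate. -/
theorem row_rank (ψ : AddChar (ZMod q) K) (hψ : ψ 1 ≠ 1) (z : E → I → ZMod q)
    (b : I → ZMod q) (τ g : ℕ)
    (hb : ∀ y : I → ZMod q, (spt y).card = τ → g ≤ (univ.filter (fun e => pr z y e = -1)).card)
    (α : (E → Fin (m + 1)) → K) (β : (E → Fin (m + 1) → ZMod q) → K)
    (f : (E → Fin (m + 1) → ZMod q) → I)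
    (hf : ∀ u c, α u ≠ 0 → β c ≠ 0 → ∑ e, z e (f c) * c e (u e) ≠ b (f c)) :
    (Matrix.of fun u c => α u * β c * Am ψ z b τ u c).rank ≤
      Fintype.card I * (q ^ Fintype.card I * (m + 1) ^ (Fintype.card E - g)) := by
  classical
  have hsum : (Matrix.of fun u c => α u * β c * Am ψ z b τ u c) =
      ∑ i : I, ∑ y ∈ univ.filter (fun y : I → ZMod q => (spt y).card = τ ∧ y i = 0),
        Matrix.of fun u c => α u * (if f c = i then β c else 0) *
          (Matrix.of fun u c => Tm ψ z b y u c) u c := by
    ext u c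
    rw [Matrix.sum_apply]
    simp only [Matrix.sum_apply, Matrix.of_apply]
    rw [Finset.sum_eq_single (f c)]
    · simp only [if_true]
      rw [← Finset.mul_sum]
      by_cases h1 : α u = 0
      · simp [h1]
      by_cases h2 : β c = 0
      · simp [h2]
      rw [Am_eq ψ hψ z b τ u c (f c) (hf u c h1 h2)]
    · intro i _ hi
      apply Finset.sum_eq_zero
      intro y _
      rw [if_neg (Ne.symm hi)]
      simp
    · simp
  rw [hsum]
  refine (rank_sum_le' _ _).trans ?_
  have h1 : ∀ i ∈ (univ : Finset I),
      (∑ y ∈ univ.filter (fun y : I → ZMod q => (spt y).card = τ ∧ y i = 0),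
        Matrix.of fun u c => α u * (if f c = i then β c else 0) *
          (Matrix.of fun u c => Tm ψ z b y u c : Matrix (E → Fin (m + 1)) _ K) u c).rank ≤
        q ^ Fintype.card I * (m + 1) ^ (Fintype.card E - g) := by
    intro i _
    refine (rank_sum_le' _ _).trans ?_
    refine (Finset.sum_le_card_nsmul _ _ ((m + 1) ^ (Fintype.card E - g)) ?_).trans ?_
    · intro y hy
      refine (rank_scale_le _ _ _).trans ?_
      apply rank_Tm_le
      apply hb
      simp only [Finset.mem_filter, Finset.mem_univ, true_and] at hy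
      exact hy.1
    · rw [smul_eq_mul]
      gcongr
      refine (Finset.card_le_univ _).trans ?_
      rw [Fintype.card_fun, ZMod.card]
  refine (Finset.sum_le_card_nsmul _ _ _ h1).trans ?_
  simp

/-- The lower bound for the rank of the matrix. -/
theorem rank_Am_ge (ψ : AddChar (ZMod q) K) (hψ : ψ 1 ≠ 1) (z : E → I → ZMod q)
    (b : I → ZMod q) (τ : ℕ)
    (ha : ∀ y : I → ZMod q, y ≠ 0 → (spt y).card ≤ τ → ∃ e, pr z y e = -1) :
    m ^ Fintype.card E ≤ (Matrix.of fun (u : E → Fin (m + 1)) c => Am ψ z b τ u c).rank := by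
  classical
  have hcard : m ^ Fintype.card E = Fintype.card (E → Fin m) := by simp
  rw [hcard]
  let a : (E → Fin m) → (E → Fin (m + 1)) → K := fun w u =>
    ∏ e, ((if u e = (w e).succ then (1 : K) else 0) - (if u e = 0 then 1 else 0))
  let cc : (E → Fin m) → (E → Fin (m + 1) → ZMod q) := fun w e t =>
    if t = (w e).succ then 1 else 0
  have key : ∀ (y : I → ZMod q) (w w' : E → Fin m),
      ∑ u, a w u * Tm ψ z b y u (cc w') = ψ (-∑ i, y i * b i) *
        ∏ e, (ψ ((1 + pr z y e) * (if w e = w' e then 1 else 0)) - 1) := by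
    intro y w w'
    have h1 : ∀ u : E → Fin (m + 1), a w u * Tm ψ z b y u (cc w') = ψ (-∑ i, y i * b i) *
        ∏ e, (((if u e = (w e).succ then (1 : K) else 0) - (if u e = 0 then 1 else 0)) *
          ψ ((1 + pr z y e) * cc w' e (u e))) := by
      intro u
      simp only [a, Tm]
      rw [Finset.prod_mul_distrib]
      ring
    rw [Finset.sum_congr rfl fun u _ => h1 u, ← Finset.mul_sum]
    congr 1
    have h2 : ∀ e, ∑ t : Fin (m + 1),
        (((if t = (w e).succ then (1 : K) else 0) - (if t = 0 then 1 else 0)) *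
          ψ ((1 + pr z y e) * cc w' e t)) =
        ψ ((1 + pr z y e) * (if w e = w' e then 1 else 0)) - 1 := by
      intro e
      simp only [sub_mul, ite_mul, one_mul, zero_mul, Finset.sum_sub_distrib,
        Finset.sum_ite_eq', Finset.mem_univ, if_true]
      simp only [cc]
      have h3 : (0 : Fin (m + 1)) ≠ (w' e).succ := (Fin.succ_ne_zero _).symm
      rw [if_neg h3]
      simp [Fin.succ_inj]
    rw [← Finset.prod_congr rfl fun e _ => h2 e]
    rw [Finset.prod_univ_sum, Fintype.piFinset_univ]
  refine card_le_rank _ a cc ((ψ 1 - 1) ^ Fintype.card E)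
    (pow_ne_zero _ (sub_ne_zero.mpr hψ)) ?_
  intro w w'
  have h4 : ∑ u, a w u * (Matrix.of fun (u : E → Fin (m + 1)) c => Am ψ z b τ u c) u (cc w') =
      ∑ y ∈ univ.filter (fun y : I → ZMod q => (spt y).card ≤ τ),
        ∑ u, a w u * Tm ψ z b y u (cc w') := by
    simp only [Matrix.of_apply, Am, Finset.mul_sum]
    rw [Finset.sum_comm]
  rw [h4, Finset.sum_congr rfl fun y _ => key y w w']
  by_cases hw : w = w'
  · subst hw
    rw [if_pos rfl, Finset.sum_eq_single 0]
    · simp [pr]
    · intro y hy hy0
      simp only [Finset.mem_filter, Finset.mem_univ, true_and] at hy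
      obtain ⟨e, he⟩ := ha y hy0 hy
      rw [Finset.prod_eq_zero (Finset.mem_univ e), mul_zero]
      simp [he]
    · intro h
      exact absurd (by simp [spt]) h
  · rw [if_neg hw]
    apply Finset.sum_eq_zero
    intro y _
    obtain ⟨e, he⟩ := Function.ne_iff.mp hw
    rw [Finset.prod_eq_zero (Finset.mem_univ e), mul_zero]
    rw [if_neg he]
    simp

end Pool.Agent.Helper80K2
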