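import Mathlib

/-! Large independent sets in graphs with few edges (Turán). -/

namespace Pool.Agent.Helper80K2

open Finset SimpleGraph

theorem exists_indep {n N t : ℕ} (H : SimpleGraph (Fin n)) (hH : H.edgeSet.ncard ≤ t)
    (hN : N * (2 * t + n) ≤ n ^ 2) (hN1 : N ≤ n) :
    ∃ ι : Fin N ↪ Fin n, ∀ x y, ¬ H.Adj (ι x) (ι y) := by
  classical
  rcases Nat.lt_or_ge N 2 with h2 | h2
  · -- at most one vertex
    refine ⟨Fin.castLEEmb hN1, ?_⟩
    intro x y h
    have : x = y := by
      ext; omega
    rw [this] at h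
    exact H.loopless.irrefl _ h
  have key : ¬ (Hᶜ).CliqueFree N := by
    intro hcf
    obtain ⟨r, rfl⟩ : ∃ r, N = r + 1 := ⟨N - 1, by omega⟩
    have hr : 0 < r := by omega
    have h1 : (Hᶜ).edgeFinset.card ≤ (turanGraph n r).edgeFinset.card := by
      have := CliqueFree.card_edgeFinset_le hcf
      rw [card_edgeFinset_turanGraph]
      simpa using this
    have h3 := mul_card_edgeFinset_turanGraph_le (n := n) (r := r)
    have h4 : (Hᶜ).edgeFinset = (⊤ : SimpleGraph (Fin n)).edgeFinset \ H.edgeFinset := by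
      ext e
      induction e using Sym2.ind with
      | _ a b => simp [SimpleGraph.compl_adj]
    have h5 : (⊤ : SimpleGraph (Fin n)).edgeFinset.card ≤
        (Hᶜ).edgeFinset.card + H.edgeFinset.card := by
      rw [h4]
      exact Finset.card_le_card_sdiff_add_card
    rw [card_edgeFinset_top_eq_card_choose_two, Fintype.card_fin] at h5
    have h6 : H.edgeFinset.card ≤ t := by
      rwa [← SimpleGraph.coe_edgeFinset, Set.ncard_coe_finset] at hH
    have h7 : 2 * n.choose 2 = n * (n - 1) := by
      rw [Nat.choose_two_right, Nat.mul_div_cancel' (Nat.even_mul_pred_self n).two_dvd]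
    have hn : 0 < n := by omega
    obtain ⟨a, rfl⟩ : ∃ a, n = a + 1 := ⟨n - 1, by omega⟩
    obtain ⟨b, rfl⟩ : ∃ b, r = b + 1 := ⟨r - 1, by omega⟩
    simp only [Nat.add_sub_cancel] at h3 h7
    set eT := (turanGraph (a + 1) (b + 1)).edgeFinset.card
    set eC := (Hᶜ).edgeFinset.card
    set eH := H.edgeFinset.card
    have h8 : (b + 1) * ((a + 1) * a) ≤ (b + 1) * (2 * eT) + (b + 1) * (2 * t) := by
      rw [← h7, ← Nat.mul_add]
      apply Nat.mul_le_mul_left
      omega
    nlinarith
  simp only [SimpleGraph.CliqueFree, not_forall, not_not] at key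
  obtain ⟨S, hS⟩ := key
  let e : Fin N ≃ S := (Fintype.equivFinOfCardEq (by simpa using hS.card_eq)).symm
  refine ⟨⟨fun i => (e i : Fin n), fun i j h => e.injective (Subtype.ext h)⟩, ?_⟩
  intro x y h
  have hne : (e x : Fin n) ≠ (e y : Fin n) := h.ne
  have := hS.isClique (Finset.mem_coe.mpr (e x).2) (Finset.mem_coe.mpr (e y).2) hne
  rw [SimpleGraph.compl_adj] at this
  exact this.2 h

end Pool.Agent.Helper80K2
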