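import Pool.Agent.Helper80K2.Graph
import Pool.Agent.Helper80K2.Indep

/-!
The system used for exact cliques: variables on ordered pairs, one equation per vertex class.
-/

namespace Pool.Agent.Helper80K2.Exact

open Finset Pool.Agent.Helper80K2

variable {q : ℕ} [Fact q.Prime] {k : ℕ}

/-- Incidence vectors of ordered pairs. -/
def z (q k : ℕ) (e : Fin k × Fin k) (l : Fin k) : ZMod q :=
  (if l = e.1 then 1 else 0) - (if l = e.2 then 1 else 0)

/-- Right-hand side. -/
def b (q k : ℕ) (l : Fin k) : ZMod q := if l.val = 0 then 1 else 0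

/-- One equation per part. -/
def con (k : ℕ) (p : Fin k) : Finset (Fin k) := {p}

theorem pr_z (y : Fin k → ZMod q) (e : Fin k × Fin k) : pr (z q k) y e = y e.1 - y e.2 := by
  unfold pr z
  simp [mul_sub, Finset.sum_sub_distrib]

theorem cond_a (hq : ∀ r : ZMod q, r ≠ 0 → r = 1 ∨ r = -1) (hk : 2 ≤ k)
    (y : Fin k → ZMod q) (hy : y ≠ 0) (hs : (spt y).card ≤ k / 2) :
    ∃ e, pr (z q k) y e = -1 := by
  obtain ⟨i, hi⟩ := Function.ne_iff.mp hy
  have hj : ∃ j, y j = 0 := by
    by_contra hcon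
    push Not at hcon
    have : spt y = univ := by
      ext j; simp [spt, hcon j]
    rw [this, Finset.card_univ, Fintype.card_fin] at hs
    omega
  obtain ⟨j, hj⟩ := hj
  rcases hq (y i) hi with h | h
  · refine ⟨(j, i), ?_⟩
    rw [pr_z]; simp [hj, h]
  · refine ⟨(i, j), ?_⟩
    rw [pr_z]; simp [hj, h]

theorem cond_b (hq : ∀ r : ZMod q, r ≠ 0 → r = 1 ∨ r = -1)
    (y : Fin k → ZMod q) (hs : (spt y).card = k / 2) :
    (k / 2) * (k - k / 2) ≤ (univ.filter (fun e => pr (z q k) y e = -1)).card := by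
  classical
  have hc : (spt y)ᶜ.card = k - k / 2 := by
    rw [Finset.card_compl, hs, Fintype.card_fin]
  rw [← hc]
  conv_lhs => rw [← hs]
  rw [← Finset.card_product]
  refine Finset.card_le_card_of_injOn
    (fun ij : Fin k × Fin k => if y ij.1 = -1 then ij else (ij.2, ij.1)) ?_ ?_
  · rintro ⟨i, j⟩ hij
    simp only [Finset.coe_product, Set.mem_prod, Finset.mem_coe, Finset.mem_compl, spt,
      Finset.mem_filter, Finset.mem_univ, true_and, not_not] at hij
    simp only [Finset.coe_filter, Finset.mem_univ, true_and, Set.mem_ofPred_eq]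
    by_cases h : y i = -1
    · rw [if_pos h, pr_z]
      simp [h, hij.2]
    · rw [if_neg h, pr_z]
      rcases hq (y i) hij.1 with h1 | h1
      · simp [h1, hij.2]
      · exact absurd h1 h
  · rintro ⟨i, j⟩ hij ⟨i', j'⟩ hij' heq
    simp only [Finset.coe_product, Set.mem_prod, Finset.mem_coe, Finset.mem_compl, spt,
      Finset.mem_filter, Finset.mem_univ, true_and, not_not] at hij hij'
    simp only at heq
    split_ifs at heq with h1 h2 h2
    · exact heq
    · simp only [Prod.mk.injEq] at heq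
      rw [heq.1] at hij
      exact absurd hij'.2 hij.1
    · simp only [Prod.mk.injEq] at heq
      rw [← heq.1] at hij'
      exact absurd hij.2 hij'.1
    · simp only [Prod.mk.injEq] at heq
      rw [heq.1, heq.2]

theorem cond_A (hk : 2 ≤ k) (x : Fin k × Fin k → ZMod q) :
    (univ.filter (fun p : Fin k => ∀ i ∈ con k p, ∑ e, z q k e i * x e = b q k i)).card
      ≤ k - 1 := by
  classical
  have hne : (univ.filter (fun p : Fin k => ∀ i ∈ con k p, ∑ e, z q k e i * x e = b q k i))
      ≠ univ := by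
    intro h
    have hall : ∀ i : Fin k, ∑ e, z q k e i * x e = b q k i := by
      intro i
      have : i ∈ univ.filter (fun p : Fin k => ∀ i ∈ con k p,
          ∑ e, z q k e i * x e = b q k i) := by rw [h]; exact Finset.mem_univ _
      simp only [Finset.mem_filter, Finset.mem_univ, true_and] at this
      exact this i (by simp [con])
    have h1 : ∑ i : Fin k, ∑ e, z q k e i * x e = 0 := by
      rw [Finset.sum_comm]
      apply Finset.sum_eq_zero
      intro e _
      rw [← Finset.sum_mul]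
      have : ∑ i : Fin k, z q k e i = 0 := by
        unfold z
        simp [Finset.sum_sub_distrib]
      rw [this, zero_mul]
    have h2 : ∑ i : Fin k, b q k i = 1 := by
      unfold b
      rw [Finset.sum_eq_single (⟨0, by omega⟩ : Fin k)]
      · simp
      · intro i _ hi
        rw [if_neg]
        intro h0
        exact hi (Fin.ext h0)
      · simp
    rw [Finset.sum_congr rfl fun i _ => hall i, h2] at h1
    exact one_ne_zero h1
  have hlt : (univ.filter (fun p : Fin k => ∀ i ∈ con k p,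
      ∑ e, z q k e i * x e = b q k i)).card < (univ : Finset (Fin k)).card :=
    Finset.card_lt_card (Finset.ssubset_univ_iff.mpr hne)
  rw [Finset.card_univ, Fintype.card_fin] at hlt
  omega

theorem card_Ep (p : Fin k) : (Ep (z q k) (con k) p).card ≤ 2 * (k - 1) := by
  classical
  have hsub : Ep (z q k) (con k) p ⊆
      ((univ.erase p).image (fun j => (p, j))) ∪ ((univ.erase p).image (fun j => (j, p))) := by
    rintro ⟨i, j⟩ he
    simp only [Ep, con, Finset.mem_filter, Finset.mem_univ, true_and, Finset.mem_singleton,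
      exists_eq_left, z] at he
    simp only [Finset.mem_union, Finset.mem_image, Finset.mem_erase, Finset.mem_univ, and_true,
      Prod.mk.injEq]
    by_cases h1 : p = i
    · by_cases h2 : p = j
      · simp [← h1, ← h2] at he
      · left
        exact ⟨j, Ne.symm h2, h1, rfl⟩
    · by_cases h2 : p = j
      · right
        exact ⟨i, Ne.symm h1, rfl, h2⟩
      · simp [h1, h2] at he
  refine (Finset.card_le_card hsub).trans ((Finset.card_union_le _ _).trans ?_)
  have h1 := Finset.card_image_le (s := univ.erase p) (f := fun j : Fin k => (p, j))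
  have h2 := Finset.card_image_le (s := univ.erase p) (f := fun j : Fin k => (j, p))
  rw [Finset.card_erase_of_mem (Finset.mem_univ _), Finset.card_univ, Fintype.card_fin] at h1 h2
  omega

theorem card_Vtx (m : ℕ) :
    Fintype.card (Vtx (z q k) (con k) m) ≤ k * (m + 1) ^ (2 * (k - 1)) := by
  classical
  rw [Fintype.card_sigma]
  refine (Finset.sum_le_card_nsmul _ _ ((m + 1) ^ (2 * (k - 1))) ?_).trans ?_
  · intro p _
    rw [Fintype.card_fun, Fintype.card_fin, Fintype.card_coe]
    exact Nat.pow_le_pow_right (Nat.succ_pos m) (card_Ep p)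
  · simp

/-- Existence of a nontrivial additive character modulo two or three. -/
theorem exists_char (K : Type*) [Field K] [IsAlgClosed K] :
    ∃ q : ℕ, ∃ _ : Fact q.Prime, q ≤ 3 ∧ (∀ r : ZMod q, r ≠ 0 → r = 1 ∨ r = -1) ∧
      ∃ ψ : AddChar (ZMod q) K, ψ 1 ≠ 1 := by
  by_cases h2 : (2 : K) = 0
  · refine ⟨3, ⟨Nat.prime_three⟩, le_refl _, by decide, ?_⟩
    obtain ⟨w, hw⟩ : ∃ w : K, w ^ 2 + w + 1 = 0 := by
      have hdeg : (Polynomial.X ^ 2 + Polynomial.X + 1 : Polynomial K).degree ≠ 0 := by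
        have : (Polynomial.X ^ 2 + Polynomial.X + 1 : Polynomial K).degree = 2 := by
          compute_degree!
        rw [this]; decide
      obtain ⟨w, hw⟩ := IsAlgClosed.exists_root _ hdeg
      refine ⟨w, ?_⟩
      simpa [Polynomial.IsRoot] using hw
    have hw3 : w ^ 3 = 1 := by
      have : w ^ 3 - 1 = (w - 1) * (w ^ 2 + w + 1) := by ring
      rw [hw, mul_zero] at this
      exact sub_eq_zero.mp this
    refine ⟨AddChar.zmodChar 3 hw3, ?_⟩
    intro h
    have h1 : w = 1 := by
      have := h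
      rw [AddChar.zmodChar_apply] at this
      have hv : (1 : ZMod 3).val = 1 := rfl
      rw [hv, pow_one] at this
      exact this
    rw [h1] at hw
    have h3 : (1 : K) = 0 := by
      have : (1 : K) ^ 2 + 1 + 1 = 2 + 1 := by ring
      rw [this, h2, zero_add] at hw
      exact hw
    exact one_ne_zero h3
  · refine ⟨2, ⟨Nat.prime_two⟩, by norm_num, by decide, ?_⟩
    have hw : (-1 : K) ^ 2 = 1 := by ring
    refine ⟨AddChar.zmodChar 2 hw, ?_⟩
    intro h
    have h1 : (-1 : K) = 1 := by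
      have := h
      rw [AddChar.zmodChar_apply] at this
      have hv : (1 : ZMod 2).val = 1 := rfl
      rw [hv, pow_one] at this
      exact this
    apply h2
    have : (2 : K) = 1 - (-1) := by ring
    rw [this, h1, sub_self]

/-- The bound at a fixed alphabet size. -/
theorem bound_m {F : Type*} [Field F] {n N s m : ℕ} (hk : 2 ≤ k)
    (hn : k * (m + 1) ^ (2 * (k - 1)) ≤ N) (Q : SpanProgram F (Sym2 (Fin n) × Bool) s)
    (ι : Fin N ↪ Fin n) (hι : ∀ x y, ¬ (negated Q).Adj (ι x) (ι y))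
    (hQ : ∀ G : SimpleGraph (Fin n), Q.Accepts (literals G) ↔ ¬ G.CliqueFree k) :
    m ^ (k * k) ≤ s * (k * (3 ^ k * (m + 1) ^ (k * k - (k / 2) * (k - k / 2)))) := by
  classical
  obtain ⟨q, hq, hq3, hq1, ψ, hψ⟩ := exists_char (AlgebraicClosure F)
  have hcard : Fintype.card (Vtx (z q k) (con k) m) ≤ Fintype.card (Fin N) := by
    rw [Fintype.card_fin]
    exact (card_Vtx m).trans hn
  obtain ⟨κ⟩ := Function.Embedding.nonempty_of_card_le hcard
  have hne : Nonempty (Vtx (z q k) (con k) m) := ⟨⟨⟨0, by omega⟩, fun _ => 0⟩⟩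
  have hkk : k - 1 + 1 = k := by omega
  have h := core_bound (F := F) (K := AlgebraicClosure F) ψ hψ (z q k) (b q k) (con k) m (k / 2)
    ((k / 2) * (k - k / 2)) (k - 1) (fun y hy hs => cond_a hq1 hk y hy hs)
    (fun y hs => cond_b hq1 y hs) (fun x => by convert cond_A hk x) (by omega)
    Q (fun G => literals (G.map (κ.trans ι)))
    (fun r => lit_ok Q (κ.trans ι) (fun x y => hι _ _) r)
    (fun G hG => (hQ _).mpr (by
      rw [Fintype.card_fin] at hG
      rwa [SimpleGraph.cliqueFree_map_iff]))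
    (fun G hG hacc => (hQ _).mp hacc (by
      rw [hkk] at hG
      rwa [SimpleGraph.cliqueFree_map_iff]))
  rw [Fintype.card_prod, Fintype.card_fin] at h
  refine h.trans ?_
  gcongr

theorem rows_pos {F : Type*} [Field F] {n s : ℕ} (hk : 2 ≤ k) (hkn : k ≤ n)
    (Q : SpanProgram F (Sym2 (Fin n) × Bool) s)
    (hQ : ∀ G : SimpleGraph (Fin n), Q.Accepts (literals G) ↔ ¬ G.CliqueFree k) : 1 ≤ s := by
  by_contra hs
  have hs0 : s = 0 := by omega
  subst hs0
  have h1 : Q.Accepts (literals (⊤ : SimpleGraph (Fin n))) := by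
    rw [hQ]
    intro h
    refine h (univ.map (Fin.castLEEmb hkn)) ⟨?_, by simp⟩
    intro x _ y _ hxy
    exact hxy
  have h2 : ¬ Q.Accepts (literals (⊥ : SimpleGraph (Fin n))) := by
    rw [hQ, not_not]
    exact SimpleGraph.cliqueFree_bot hk
  apply h2
  unfold SpanProgram.Accepts at h1 ⊢
  have e1 : ∀ S : Set (Fin 0), S = ∅ := fun S => Set.eq_empty_of_isEmpty S
  rw [e1 {r | Q.label r ∈ literals (⊤ : SimpleGraph (Fin n))}] at h1
  rw [e1 {r | Q.label r ∈ literals (⊥ : SimpleGraph (Fin n))}]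
  exact h1

/-- The bound, in terms of a set of vertices without negated literals. -/
theorem exact_bound {F : Type*} [Field F] {n N s : ℕ} (hk : 2 ≤ k) (hkn : k ≤ N) (hNn : N ≤ n)
    (Q : SpanProgram F (Sym2 (Fin n) × Bool) s)
    (ι : Fin N ↪ Fin n) (hι : ∀ x y, ¬ (negated Q).Adj (ι x) (ι y))
    (hQ : ∀ G : SimpleGraph (Fin n), Q.Accepts (literals G) ↔ ¬ G.CliqueFree k) :
    N ^ (k + 1) ≤ 2 ^ (33 * k ^ 2) * s ^ 8 := by
  have hs : 1 ≤ s := rows_pos hk (hkn.trans hNn) Q hQ
  have hk2 : k ≤ 2 ^ k := (Nat.lt_two_pow_self).le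
  have hd : 1 ≤ 2 * (k - 1) := by omega
  -- the largest admissible alphabet
  obtain ⟨M, hM1, hM2, hM3⟩ : ∃ M : ℕ, 1 ≤ M ∧ k * M ^ (2 * (k - 1)) ≤ N ∧
      N < k * (M + 1) ^ (2 * (k - 1)) := by
    classical
    have hex : ∃ M : ℕ, N < k * (M + 1) ^ (2 * (k - 1)) := by
      refine ⟨N, ?_⟩
      calc N < N + 1 := Nat.lt_succ_self N
        _ ≤ (N + 1) ^ (2 * (k - 1)) := Nat.le_self_pow (by omega) _
        _ ≤ k * (N + 1) ^ (2 * (k - 1)) := Nat.le_mul_of_pos_left _ (by omega)
    refine ⟨Nat.find hex, ?_, ?_, Nat.find_spec hex⟩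
    · rw [Nat.one_le_iff_ne_zero]
      intro h0
      have := Nat.find_spec hex
      rw [h0] at this
      simp at this
      omega
    · have hpos : 0 < Nat.find hex := by
        rw [Nat.pos_iff_ne_zero]
        intro h0
        have := Nat.find_spec hex
        rw [h0] at this
        simp at this
        omega
      have := Nat.find_min hex (m := Nat.find hex - 1) (by omega)
      push Not at this
      have h1 : Nat.find hex - 1 + 1 = Nat.find hex := by omega
      rwa [h1] at this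
  set g := (k / 2) * (k - k / 2) with hg
  have hg1 : (k - 1) * (k + 1) ≤ 4 * g := by
    rcases Nat.even_or_odd' k with ⟨t, ht | ht⟩
    · have h1 : k / 2 = t := by omega
      have h2 : k - k / 2 = t := by omega
      rw [hg, h2, h1]
      have : (k - 1) * (k + 1) ≤ k * k := by
        obtain ⟨a, rfl⟩ : ∃ a, k = a + 1 := ⟨k - 1, by omega⟩
        simp only [Nat.add_sub_cancel]
        nlinarith
      rw [ht] at this ⊢
      nlinarith
    · have h1 : k / 2 = t := by omega
      have h2 : k - k / 2 = t + 1 := by omega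
      rw [hg, h2, h1]
      have h3 : k - 1 = 2 * t := by omega
      have h4 : k + 1 = 2 * (t + 1) := by omega
      rw [h3, h4]
      nlinarith
  have hgk : g ≤ k * k := by
    rw [hg]
    exact Nat.mul_le_mul (by omega) (by omega)
  -- bound on `M ^ g`
  have hMg : M ^ g ≤ 2 ^ (k * k) * (k * 3 ^ k) * s := by
    rcases Nat.lt_or_ge M 2 with h | h
    · have : M = 1 := by omega
      rw [this, one_pow]
      have : 0 < 2 ^ (k * k) * (k * 3 ^ k) * s := by positivity
      omega
    · obtain ⟨m, rfl⟩ : ∃ m, M = m + 1 := ⟨M - 1, by omega⟩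
      have hb := bound_m hk hM2 Q ι hι hQ
      rw [← hg] at hb
      have h1 : (m + 1) ^ (k * k) ≤ 2 ^ (k * k) * m ^ (k * k) := by
        rw [← Nat.mul_pow]
        exact Nat.pow_le_pow_left (by omega) _
      have h2 : (m + 1) ^ (k * k - g) * (m + 1) ^ g ≤
          (m + 1) ^ (k * k - g) * (2 ^ (k * k) * (k * 3 ^ k) * s) := by
        rw [← pow_add, Nat.sub_add_cancel hgk]
        calc (m + 1) ^ (k * k) ≤ 2 ^ (k * k) * m ^ (k * k) := h1
          _ ≤ 2 ^ (k * k) * (s * (k * (3 ^ k * (m + 1) ^ (k * k - g)))) := by gcongr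
          _ = (m + 1) ^ (k * k - g) * (2 ^ (k * k) * (k * 3 ^ k) * s) := by ring
      exact Nat.le_of_mul_le_mul_left h2 (by positivity)
  have h3 : N ≤ k * (2 * M) ^ (2 * (k - 1)) := by
    refine hM3.le.trans ?_
    gcongr
    omega
  have h4 : N ^ (k + 1) ≤ k ^ (k + 1) * (2 * M) ^ (8 * g) := by
    calc N ^ (k + 1) ≤ (k * (2 * M) ^ (2 * (k - 1))) ^ (k + 1) := Nat.pow_le_pow_left h3 _
      _ = k ^ (k + 1) * (2 * M) ^ (2 * ((k - 1) * (k + 1))) := by
          rw [Nat.mul_pow, ← pow_mul]; ring_nf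
      _ ≤ k ^ (k + 1) * (2 * M) ^ (8 * g) := by
          apply Nat.mul_le_mul_left
          apply Nat.pow_le_pow_right (by omega)
          omega
  have h5 : (2 * M) ^ (8 * g) ≤ 2 ^ (8 * (k * k)) * (2 ^ (k * k) * (k * 3 ^ k) * s) ^ 8 := by
    rw [Nat.mul_pow]
    have e1 : M ^ (8 * g) = (M ^ g) ^ 8 := by rw [← pow_mul]; ring_nf
    rw [e1]
    gcongr
    omega
  have h6 : k * 3 ^ k ≤ 2 ^ (3 * k) := by
    calc k * 3 ^ k ≤ 2 ^ k * 4 ^ k := by gcongr; omega
      _ = 2 ^ (3 * k) := by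
        rw [show (4 : ℕ) = 2 ^ 2 by norm_num, ← pow_mul, ← pow_add]
        ring_nf
  calc N ^ (k + 1) ≤ k ^ (k + 1) * (2 * M) ^ (8 * g) := h4
    _ ≤ (2 ^ k) ^ (k + 1) * (2 ^ (8 * (k * k)) * (2 ^ (k * k) * 2 ^ (3 * k) * s) ^ 8) := by
        refine Nat.mul_le_mul (Nat.pow_le_pow_left hk2 _) (h5.trans ?_)
        gcongr
    _ = 2 ^ (k * (k + 1) + 8 * (k * k) + 8 * (k * k + 3 * k)) * s ^ 8 := by
        rw [Nat.mul_pow, ← pow_add, ← pow_mul, ← pow_mul, pow_add, pow_add]
        ring
    _ ≤ 2 ^ (33 * k ^ 2) * s ^ 8 := by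
        gcongr
        · omega
        · nlinarith

/-- The final bound. -/
theorem final_bound {F : Type*} [Field F] {n s : ℕ} (hk : 2 ≤ k) (hkn : k ≤ n)
    (Q : SpanProgram F (Sym2 (Fin n) × Bool) s)
    (hQ : ∀ G : SimpleGraph (Fin n), Q.Accepts (literals G) ↔ ¬ G.CliqueFree k) :
    n ^ (2 * (k + 1)) ≤
      2 ^ (35 * k ^ 2) * (2 * (negated Q).edgeSet.ncard + n) ^ (k + 1) * s ^ 8 := by
  classical
  have hs : 1 ≤ s := rows_pos hk hkn Q hQ
  set t := (negated Q).edgeSet.ncard with ht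
  have ht2 : 2 * t + n ≤ n ^ 2 := by
    have h1 : t ≤ n.choose 2 := by
      rw [ht, ← SimpleGraph.coe_edgeFinset, Set.ncard_coe_finset]
      have := SimpleGraph.card_edgeFinset_le_card_choose_two (G := negated Q)
      simpa using this
    have h7 : 2 * n.choose 2 = n * (n - 1) := by
      rw [Nat.choose_two_right, Nat.mul_div_cancel' (Nat.even_mul_pred_self n).two_dvd]
    obtain ⟨a, rfl⟩ : ∃ a, n = a + 1 := ⟨n - 1, by omega⟩
    simp only [Nat.add_sub_cancel] at h7
    nlinarith
  set D := 2 * t + n with hD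
  have hDpos : 0 < D := by omega
  set N := n ^ 2 / D with hN
  have hN1 : N * D ≤ n ^ 2 := Nat.div_mul_le_self _ _
  have hN2 : n ^ 2 < (N + 1) * D := by
    rw [hN, Nat.add_mul, one_mul]
    exact Nat.lt_div_mul_add hDpos
  have hNpos : 1 ≤ N := by
    rw [hN]
    exact (Nat.one_le_div_iff hDpos).mpr ht2
  have hNn : N ≤ n := by
    have : N * n ≤ n * n := by
      calc N * n ≤ N * D := Nat.mul_le_mul_left _ (by omega)
        _ ≤ n * n := by rw [← sq]; exact hN1
    exact Nat.le_of_mul_le_mul_right this (by omega)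
  have hn2 : n ^ 2 ≤ 2 * N * D := by
    refine hN2.le.trans ?_
    apply Nat.mul_le_mul_right
    omega
  have hpow : n ^ (2 * (k + 1)) ≤ 2 ^ (k + 1) * D ^ (k + 1) * N ^ (k + 1) := by
    calc n ^ (2 * (k + 1)) = (n ^ 2) ^ (k + 1) := by rw [← pow_mul]
      _ ≤ (2 * N * D) ^ (k + 1) := Nat.pow_le_pow_left hn2 _
      _ = 2 ^ (k + 1) * D ^ (k + 1) * N ^ (k + 1) := by rw [Nat.mul_pow, Nat.mul_pow]; ring
  have hNk : N ^ (k + 1) ≤ 2 ^ (33 * k ^ 2) * s ^ 8 := by
    rcases Nat.lt_or_ge N k with h | h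
    · have hk2 : N ≤ 2 ^ k := h.le.trans (Nat.lt_two_pow_self).le
      calc N ^ (k + 1) ≤ (2 ^ k) ^ (k + 1) := Nat.pow_le_pow_left hk2 _
        _ = 2 ^ (k * (k + 1)) := by rw [← pow_mul]
        _ ≤ 2 ^ (33 * k ^ 2) := Nat.pow_le_pow_right (by omega) (by nlinarith)
        _ ≤ 2 ^ (33 * k ^ 2) * s ^ 8 := Nat.le_mul_of_pos_right _ (by positivity)
    · obtain ⟨ι, hι⟩ := exists_indep (negated Q) ht.symm.le hN1 hNn
      exact exact_bound hk h hNn Q ι hι hQ
  calc n ^ (2 * (k + 1)) ≤ 2 ^ (k + 1) * D ^ (k + 1) * N ^ (k + 1) := hpow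
    _ ≤ 2 ^ (k + 1) * D ^ (k + 1) * (2 ^ (33 * k ^ 2) * s ^ 8) := by gcongr
    _ = 2 ^ (k + 1 + 33 * k ^ 2) * D ^ (k + 1) * s ^ 8 := by rw [pow_add]; ring
    _ ≤ 2 ^ (35 * k ^ 2) * D ^ (k + 1) * s ^ 8 := by
        gcongr
        · omega
        · nlinarith

end Pool.Agent.Helper80K2.Exact
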