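import Pool.Agent.Helper80K2.Core

/-!
The graphs attached to a linear system, and the lower bound for span programs which separate
graphs having a clique of size `card P` from graphs whose cliques have size at most `A`.
-/

namespace Pool.Agent.Helper80K2

open Finset

variable {E I P : Type} [Fintype E] [DecidableEq E] [Fintype I] [DecidableEq I]
  [Fintype P] [DecidableEq P] {q : ℕ} [Fact q.Prime]

/-- Coordinates read by part `p`. -/
def Ep (z : E → I → ZMod q) (con : P → Finset I) (p : P) : Finset E :=
  univ.filter (fun e => ∃ i ∈ con p, z e i ≠ 0)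

/-- Vertices: a part together with values of the coordinates it reads. -/
abbrev Vtx (z : E → I → ZMod q) (con : P → Finset I) (m : ℕ) : Type :=
  Σ p : P, ({e // e ∈ Ep z con p} → Fin (m + 1))

/-- A vertex is alive when its constraints hold. -/
def Alive (z : E → I → ZMod q) (b : I → ZMod q) (con : P → Finset I) {m : ℕ}
    (c : E → Fin (m + 1) → ZMod q) (x : Vtx z con m) : Prop :=
  ∀ i ∈ con x.1, ∑ e : {e // e ∈ Ep z con x.1}, z e.1 i * c e.1 (x.2 e) = b i

/-- The graph of the alive and consistent vertices. -/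
def negG (z : E → I → ZMod q) (b : I → ZMod q) (con : P → Finset I) {m : ℕ}
    (c : E → Fin (m + 1) → ZMod q) : SimpleGraph (Vtx z con m) where
  Adj x y := x.1 ≠ y.1 ∧ (∀ (e : E) (hx : e ∈ Ep z con x.1) (hy : e ∈ Ep z con y.1),
    x.2 ⟨e, hx⟩ = y.2 ⟨e, hy⟩) ∧ Alive z b con c x ∧ Alive z b con c y
  symm := ⟨by
    rintro x y ⟨h1, h2, h3, h4⟩
    exact ⟨h1.symm, fun e hx hy => (h2 e hy hx).symm, h4, h3⟩⟩
  loopless := ⟨fun x h => h.1 rfl⟩

/-- The vertex of part `p` carried by a global assignment. -/
def posV (z : E → I → ZMod q) (con : P → Finset I) {m : ℕ} (u : E → Fin (m + 1)) (p : P) :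
    Vtx z con m := ⟨p, fun e => u e.1⟩

/-- The clique on all the vertices carried by a global assignment. -/
def posG (z : E → I → ZMod q) (con : P → Finset I) {m : ℕ} (u : E → Fin (m + 1)) :
    SimpleGraph (Vtx z con m) where
  Adj x y := x.1 ≠ y.1 ∧ x = posV z con u x.1 ∧ y = posV z con u y.1
  symm := ⟨by
    rintro x y ⟨h1, h2, h3⟩
    exact ⟨h1.symm, h3, h2⟩⟩
  loopless := ⟨fun x h => h.1 rfl⟩

theorem sum_Ep (z : E → I → ZMod q) (con : P → Finset I) (p : P) (i : I) (hi : i ∈ con p)
    (g : E → ZMod q) :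
    ∑ e : {e // e ∈ Ep z con p}, z e.1 i * g e.1 = ∑ e, z e i * g e := by
  rw [← Finset.sum_subtype (Ep z con p) (fun e => Iff.rfl) (fun e => z e i * g e)]
  apply Finset.sum_subset (Finset.subset_univ _)
  intro e _ he
  have : z e i = 0 := by
    by_contra h
    exact he (by simp only [Ep, Finset.mem_filter, Finset.mem_univ, true_and]; exact ⟨i, hi, h⟩)
  rw [this, zero_mul]

theorem posV_inj (z : E → I → ZMod q) (con : P → Finset I) {m : ℕ} (u : E → Fin (m + 1)) :
    Function.Injective (posV z con u) := by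
  intro p p' h
  have h1 : (posV z con u p).1 = (posV z con u p').1 := congrArg Sigma.fst h
  exact h1

/-- The positive graph has a clique meeting every part. -/
theorem posG_clique (z : E → I → ZMod q) (con : P → Finset I) {m : ℕ} (u : E → Fin (m + 1)) :
    (posG z con u).IsNClique (Fintype.card P)
      (univ.map ⟨posV z con u, posV_inj z con u⟩) := by
  refine ⟨?_, by simp⟩
  intro x hx y hy hxy
  simp only [Finset.coe_map, Finset.coe_univ, Set.image_univ, Set.mem_range] at hx hy
  obtain ⟨p, rfl⟩ := hx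
  obtain ⟨p', rfl⟩ := hy
  refine ⟨?_, rfl, rfl⟩
  intro h
  apply hxy
  exact congrArg (posV z con u) h

/-- Cliques of the negative graph come from simultaneously satisfiable parts. -/
theorem negG_cliqueFree (z : E → I → ZMod q) (b : I → ZMod q) (con : P → Finset I) {m : ℕ}
    (c : E → Fin (m + 1) → ZMod q) (A : ℕ)
    (hA : ∀ x : E → ZMod q,
      (univ.filter (fun p : P => ∀ i ∈ con p, ∑ e, z e i * x e = b i)).card ≤ A)
    (hA0 : 2 ≤ A + 1) :
    (negG z b con c).CliqueFree (A + 1) := by
  classical
  intro S hS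
  -- every member of the clique is alive
  have halive : ∀ x ∈ S, Alive z b con c x := by
    intro x hx
    have : 1 < S.card := by rw [hS.card_eq]; omega
    obtain ⟨y, hy, hyx⟩ := Finset.exists_mem_ne this x
    exact (hS.isClique (Finset.mem_coe.mpr hx) (Finset.mem_coe.mpr hy) hyx.symm).2.2.1
  have hinj : Set.InjOn (fun x : Vtx z con m => x.1) (S : Set (Vtx z con m)) := by
    intro x hx y hy hxy
    by_contra hne
    exact (hS.isClique hx hy hne).1 hxy
  -- glue
  let v : E → Fin (m + 1) := fun e =>
    if h : ∃ x ∈ S, e ∈ Ep z con x.1 then h.choose.2 ⟨e, h.choose_spec.2⟩ else 0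
  have hv : ∀ x ∈ S, ∀ (e : E) (he : e ∈ Ep z con x.1), v e = x.2 ⟨e, he⟩ := by
    intro x hx e he
    have hex : ∃ x ∈ S, e ∈ Ep z con x.1 := ⟨x, hx, he⟩
    have h1 : v e = hex.choose.2 ⟨e, hex.choose_spec.2⟩ := dif_pos hex
    rw [h1]
    by_cases heq : hex.choose = x
    · have hgen : ∀ (w : Vtx z con m) (hw : e ∈ Ep z con w.1), w = x →
          w.2 ⟨e, hw⟩ = x.2 ⟨e, he⟩ := by
        rintro w hw rfl
        rfl
      exact hgen _ _ heq
    · exact (hS.isClique (Finset.mem_coe.mpr hex.choose_spec.1) (Finset.mem_coe.mpr hx)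
        heq).2.1 e _ _
  have hsub : S.image (fun x : Vtx z con m => x.1) ⊆
      univ.filter (fun p : P => ∀ i ∈ con p, ∑ e, z e i * c e (v e) = b i) := by
    intro p hp
    obtain ⟨x, hx, rfl⟩ := Finset.mem_image.mp hp
    simp only [Finset.mem_filter, Finset.mem_univ, true_and]
    intro i hi
    rw [← sum_Ep z con x.1 i hi (fun e => c e (v e)), ← halive x hx i hi]
    refine Finset.sum_congr rfl fun e _ => ?_
    rw [hv x hx e.1 e.2]
  have h1 := Finset.card_le_card hsub
  rw [Finset.card_image_of_injOn hinj, hS.card_eq] at h1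
  have h2 := hA (fun e => c e (v e))
  omega

/-- The main lower bound.  `lit G` is the set of literals that hold in the graph `G`; every
literal which is the label of a row is constant or says that a certain edge is present. -/
theorem core_bound {F : Type*} [Field F] {K : Type*} [Field K] [Algebra F K]
    (ψ : AddChar (ZMod q) K) (hψ : ψ 1 ≠ 1)
    (z : E → I → ZMod q) (b : I → ZMod q) (con : P → Finset I) (m τ g A : ℕ)
    (ha : ∀ y : I → ZMod q, y ≠ 0 → (spt y).card ≤ τ → ∃ e, pr z y e = -1)
    (hb : ∀ y : I → ZMod q, (spt y).card = τ → g ≤ (univ.filter (fun e => pr z y e = -1)).card)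
    (hA : ∀ x : E → ZMod q,
      (univ.filter (fun p : P => ∀ i ∈ con p, ∑ e, z e i * x e = b i)).card ≤ A)
    (hA0 : 2 ≤ A + 1) {X : Type*} {s : ℕ} (Q : SpanProgram F X s)
    (lit : SimpleGraph (Vtx z con m) → Set X)
    (hlit : ∀ r, (∀ G H, Q.label r ∈ lit G → Q.label r ∈ lit H) ∨
      ∃ x y, ∀ G : SimpleGraph (Vtx z con m), Q.label r ∈ lit G ↔ G.Adj x y)
    (hpos : ∀ G, ¬ G.CliqueFree (Fintype.card P) → Q.Accepts (lit G))
    (hneg : ∀ G, G.CliqueFree (A + 1) → ¬ Q.Accepts (lit G)) :
    m ^ Fintype.card E ≤ s * (Fintype.card I * (q ^ Fintype.card I *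
      (m + 1) ^ (Fintype.card E - g))) := by
  classical
  have hpos' : ∀ u : E → Fin (m + 1), Q.Accepts (lit (posG z con u)) := by
    intro u
    apply hpos
    intro h
    exact h _ (posG_clique z con u)
  have hneg' : ∀ c : E → Fin (m + 1) → ZMod q, ¬ Q.Accepts (lit (negG z b con c)) := by
    intro c
    apply hneg
    exact negG_cliqueFree z b con c A hA hA0
  obtain ⟨α, β, h1, h2, h3⟩ := certificate (K := K) Q
    (fun u : E → Fin (m + 1) => lit (posG z con u))
    (fun c : E → Fin (m + 1) → ZMod q => lit (negG z b con c)) hpos' hneg'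
  refine (rank_Am_ge ψ hψ z b τ ha).trans ?_
  refine rank_le_of_certificate α β h1 _ _ ?_
  intro r
  by_cases hI : Nonempty I
  swap
  · -- no equations at all: then everything is satisfiable
    exfalso
    have : IsEmpty I := not_nonempty_iff.mp hI
    have hall : (univ.filter (fun p : P => ∀ i ∈ con p, ∑ e, z e i * (0 : E → ZMod q) e = b i))
        = univ := by
      ext p; simp
    have h4 := hA 0
    rw [hall, Finset.card_univ] at h4
    have h5 : ¬ (posG z con (fun _ : E => (0 : Fin (m + 1)))).CliqueFree (Fintype.card P) :=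
      fun h => h _ (posG_clique z con _)
    have h6 : (posG z con (fun _ : E => (0 : Fin (m + 1)))).CliqueFree (A + 1) := by
      intro S hS
      have hinj : Set.InjOn (fun x : Vtx z con m => x.1) (S : Set (Vtx z con m)) := by
        intro x hx y hy hxy
        by_contra hne
        exact (hS.isClique hx hy hne).1 hxy
      have h7 : (S.image (fun x : Vtx z con m => x.1)).card ≤ Fintype.card P :=
        Finset.card_le_univ _
      rw [Finset.card_image_of_injOn hinj, hS.card_eq] at h7
      omega
    exact hneg _ h6 (hpos _ h5)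
  by_cases h0 : ∀ u c, α u r * β c r = 0
  · have : (Matrix.of fun u c => α u r * β c r *
        (Matrix.of fun (u : E → Fin (m + 1)) c => Am ψ z b τ u c) u c) = 0 := by
      ext u c
      simp only [Matrix.of_apply, Matrix.zero_apply]
      rw [h0 u c, zero_mul]
    rw [this, Matrix.rank_zero]
    exact Nat.zero_le _
  push Not at h0
  obtain ⟨u0, c0, huc0⟩ := h0
  have hu0 : α u0 r ≠ 0 := left_ne_zero_of_mul huc0
  have hc0 : β c0 r ≠ 0 := right_ne_zero_of_mul huc0
  obtain ⟨x, y, hxyl⟩ : ∃ x y, ∀ G : SimpleGraph (Vtx z con m), Q.label r ∈ lit G ↔ G.Adj x y := by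
    rcases hlit r with h | h
    · exact absurd (h _ _ (h2 u0 r hu0)) (h3 c0 r hc0)
    · exact h
  have hxy : (posG z con u0).Adj x y := (hxyl _).mp (h2 u0 r hu0)
  have hu : ∀ u, α u r ≠ 0 → x = posV z con u x.1 ∧ y = posV z con u y.1 := by
    intro u hu
    have := (hxyl _).mp (h2 u r hu)
    exact this.2
  have hagree : ∀ u, α u r ≠ 0 → ∀ e, (e ∈ Ep z con x.1 ∨ e ∈ Ep z con y.1) → u e = u0 e := by
    intro u hu1 e he
    have ha1 := hu u hu1
    have ha2 := hu u0 hu0
    rcases he with he | he
    · have h8 : posV z con u x.1 = posV z con u0 x.1 := ha1.1.symm.trans ha2.1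
      simp only [posV, Sigma.mk.injEq, heq_eq_eq, true_and] at h8
      exact congrFun h8 ⟨e, he⟩
    · have h8 : posV z con u y.1 = posV z con u0 y.1 := ha1.2.symm.trans ha2.2
      simp only [posV, Sigma.mk.injEq, heq_eq_eq, true_and] at h8
      exact congrFun h8 ⟨e, he⟩
  have hviol : ∀ c, β c r ≠ 0 → ∃ i : I, (i ∈ con x.1 ∨ i ∈ con y.1) ∧
      ∑ e, z e i * c e (u0 e) ≠ b i := by
    intro c hc
    have h9 := h3 c r hc
    rw [hxyl] at h9
    by_contra hcon
    push Not at hcon
    apply h9
    have hx := (hu u0 hu0).1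
    have hy := (hu u0 hu0).2
    refine ⟨hxy.1, ?_, ?_, ?_⟩
    · intro e he he'
      rw [Sigma.ext_iff] at hx hy
      have hx2 := eq_of_heq hx.2
      have hy2 := eq_of_heq hy.2
      rw [hx2, hy2]
      rfl
    · intro i hi
      have := hcon i (Or.inl hi)
      rw [← sum_Ep z con x.1 i hi (fun e => c e (u0 e))] at this
      rw [← this]
      refine Finset.sum_congr rfl fun e _ => ?_
      rw [Sigma.ext_iff] at hx
      have hx2 := eq_of_heq hx.2
      rw [hx2]
      rfl
    · intro i hi
      have := hcon i (Or.inr hi)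
      rw [← sum_Ep z con y.1 i hi (fun e => c e (u0 e))] at this
      rw [← this]
      refine Finset.sum_congr rfl fun e _ => ?_
      rw [Sigma.ext_iff] at hy
      have hy2 := eq_of_heq hy.2
      rw [hy2]
      rfl
  let f : (E → Fin (m + 1) → ZMod q) → I := fun c =>
    if h : ∃ i : I, (i ∈ con x.1 ∨ i ∈ con y.1) ∧ ∑ e, z e i * c e (u0 e) ≠ b i
    then h.choose else hI.some
  refine row_rank ψ hψ z b τ g hb (fun u => α u r) (fun c => β c r) f ?_
  intro u c hu1 hc1
  have hex := hviol c hc1
  have hfc : f c = hex.choose := dif_pos hex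
  rw [hfc]
  obtain ⟨hmem, hne⟩ := hex.choose_spec
  intro heq
  apply hne
  rw [← heq]
  refine Finset.sum_congr rfl fun e _ => ?_
  by_cases hz : z e hex.choose = 0
  · rw [hz, zero_mul, zero_mul]
  · have : e ∈ Ep z con x.1 ∨ e ∈ Ep z con y.1 := by
      rcases hmem with h | h
      · left
        simp only [Ep, Finset.mem_filter, Finset.mem_univ, true_and]
        exact ⟨_, h, hz⟩
      · right
        simp only [Ep, Finset.mem_filter, Finset.mem_univ, true_and]
        exact ⟨_, h, hz⟩
    rw [hagree u hu1 e this]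

/-! ### Span programs on graphs, with some negated edges -/

/-- The literals that are true in the graph `G` on `Fin n`: the pair `(e, true)` says that `e` is
an edge, the pair `(e, false)` says that it is not. -/
def literals {n : ℕ} (G : SimpleGraph (Fin n)) : Set (Sym2 (Fin n) × Bool) :=
  {x | x.1 ∈ G.edgeSet ↔ x.2 = true}

/-- The graph formed by the pairs of vertices which occur in negated literals. -/
def negated {F : Type*} [Field F] {n s : ℕ} (Q : SpanProgram F (Sym2 (Fin n) × Bool) s) :
    SimpleGraph (Fin n) where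
  Adj x y := x ≠ y ∧ ∃ r, Q.label r = (s(x, y), false)
  symm := ⟨by
    rintro x y ⟨h, r, hr⟩
    exact ⟨h.symm, r, by rw [hr, Sym2.eq_swap]⟩⟩
  loopless := ⟨fun x h => h.1 rfl⟩

/-- If a set of vertices carries no negated literals, the labels of the rows are, on graphs
embedded in this set, constant or positive. -/
theorem lit_ok {F : Type*} [Field F] {n s : ℕ} (Q : SpanProgram F (Sym2 (Fin n) × Bool) s)
    {V : Type*} (ι : V ↪ Fin n) (hι : ∀ x y, ¬ (negated Q).Adj (ι x) (ι y)) (r : Fin s) :
    (∀ G H : SimpleGraph V, Q.label r ∈ literals (G.map ι) → Q.label r ∈ literals (H.map ι)) ∨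
      ∃ x y, ∀ G : SimpleGraph V, Q.label r ∈ literals (G.map ι) ↔ G.Adj x y := by
  classical
  rcases hl : Q.label r with ⟨e, v⟩
  cases v with
  | true =>
    by_cases hex : ∃ x y : V, e = s(ι x, ι y)
    · right
      obtain ⟨x, y, rfl⟩ := hex
      refine ⟨x, y, fun G => ?_⟩
      simp [literals]
    · left
      intro G H hG
      exfalso
      simp only [literals, Set.mem_ofPred_eq, iff_true] at hG
      induction e using Sym2.ind with
      | _ a b =>
        rw [SimpleGraph.mem_edgeSet, SimpleGraph.map_adj] at hG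
        obtain ⟨x, y, _, rfl, rfl⟩ := hG
        exact hex ⟨x, y, rfl⟩
  | false =>
    left
    intro G H _
    simp only [literals, Set.mem_ofPred_eq, Bool.false_eq_true, iff_false]
    intro hH
    induction e using Sym2.ind with
    | _ a b =>
      rw [SimpleGraph.mem_edgeSet, SimpleGraph.map_adj] at hH
      obtain ⟨x, y, hxy, rfl, rfl⟩ := hH
      exact hι x y ⟨fun h => hxy.ne (ι.injective h), r, hl⟩

end Pool.Agent.Helper80K2
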