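import Mathlib

/-!
Monotone span programs and the rank certificate they provide.
-/

namespace Pool.Agent.Helper80K2

open Finset

/-- A monotone span program over the field `F` whose inputs are subsets of `X`, with `s` rows:
each row is a vector labelled by an element of `X`. -/
structure SpanProgram (F : Type*) [Field F] (X : Type*) (s : ℕ) where
  dim : ℕ
  label : Fin s → X
  row : Fin s → (Fin dim → F)
  target : Fin dim → F

/-- A monotone span program accepts `x ⊆ X` when its target lies in the linear span of the rows
whose labels belong to `x`. -/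
def SpanProgram.Accepts {F : Type*} [Field F] {X : Type*} {s : ℕ}
    (P : SpanProgram F X s) (x : Set X) : Prop :=
  P.target ∈ Submodule.span F (P.row '' {r | P.label r ∈ x})

/-- The rank certificate of a span program, over an extension field. -/
theorem certificate {F : Type*} [Field F] {K : Type*} [Field K] [Algebra F K]
    {X : Type*} {s : ℕ} (P : SpanProgram F X s) {U V : Type*}
    (pos : U → Set X) (neg : V → Set X)
    (hpos : ∀ u, P.Accepts (pos u)) (hneg : ∀ v, ¬ P.Accepts (neg v)) :
    ∃ (a : U → Fin s → K) (b : V → Fin s → K),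
      (∀ u v, ∑ r, a u r * b v r = 1) ∧ (∀ u r, a u r ≠ 0 → P.label r ∈ pos u) ∧
      (∀ v r, b v r ≠ 0 → P.label r ∉ neg v) := by
  classical
  have h1 : ∀ u, ∃ c : Fin s → F, (∑ r, c r • P.row r = P.target) ∧
      ∀ r, c r ≠ 0 → P.label r ∈ pos u := by
    intro u
    have h := hpos u
    unfold SpanProgram.Accepts at h
    have hs : {r | P.label r ∈ pos u} =
        ((Finset.univ.filter (fun r => P.label r ∈ pos u) : Finset (Fin s)) : Set (Fin s)) := by
      ext r; simp
    rw [hs, Submodule.mem_span_image_finset_iff_exists_fun'] at h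
    obtain ⟨c, hc⟩ := h
    refine ⟨fun r => if P.label r ∈ pos u then c r else 0, ?_, ?_⟩
    · rw [← hc, Finset.sum_filter]
      refine Finset.sum_congr rfl fun r _ => ?_
      by_cases hr : P.label r ∈ pos u
      · simp [hr]
      · simp [hr]
    · intro r hr
      by_contra hcon
      simp [hcon] at hr
  have h2 : ∀ v, ∃ f : (Fin P.dim → F) →ₗ[F] F, f P.target = 1 ∧
      ∀ r, f (P.row r) ≠ 0 → P.label r ∉ neg v := by
    intro v
    have h := hneg v
    unfold SpanProgram.Accepts at h
    obtain ⟨f, hf, hle⟩ := Submodule.exists_le_ker_of_notMem h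
    refine ⟨(f P.target)⁻¹ • f, ?_, ?_⟩
    · simp [hf]
    · intro r hr hmem
      apply hr
      have : P.row r ∈ LinearMap.ker f :=
        hle (Submodule.subset_span ⟨r, hmem, rfl⟩)
      rw [LinearMap.mem_ker] at this
      simp [this]
  choose c hc1 hc2 using h1
  choose f hf1 hf2 using h2
  refine ⟨fun u r => algebraMap F K (c u r), fun v r => algebraMap F K (f v (P.row r)), ?_, ?_, ?_⟩
  · intro u v
    have : f v (∑ r, c u r • P.row r) = 1 := by rw [hc1 u, hf1 v]
    rw [map_sum] at this
    have h3 := congrArg (algebraMap F K) this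
    rw [map_sum, map_one] at h3
    rw [← h3]
    refine Finset.sum_congr rfl fun r _ => ?_
    simp
  · intro u r hr
    apply hc2 u r
    intro h0
    exact hr (by simp [h0])
  · intro v r hr
    apply hf2 v r
    intro h0
    exact hr (by simp [h0])

/-- Subadditivity of the rank. -/
theorem rank_add_le' {K : Type*} [Field K] {U V : Type*} [Fintype U] [Fintype V]
    (A B : Matrix U V K) : (A + B).rank ≤ A.rank + B.rank := by
  unfold Matrix.rank
  rw [Matrix.mulVecLin_add]
  refine le_trans (Submodule.finrank_mono (?_ : _ ≤
    LinearMap.range A.mulVecLin ⊔ LinearMap.range B.mulVecLin)) ?_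
  · rintro _ ⟨x, rfl⟩
    exact Submodule.add_mem_sup ⟨x, rfl⟩ ⟨x, rfl⟩
  · exact Submodule.finrank_add_le_finrank_add_finrank _ _

theorem rank_sum_le' {K : Type*} [Field K] {U V : Type*} [Fintype U] [Fintype V]
    {ι : Type*} (S : Finset ι) (A : ι → Matrix U V K) :
    (∑ i ∈ S, A i).rank ≤ ∑ i ∈ S, (A i).rank := by
  classical
  induction S using Finset.induction_on with
  | empty => simp
  | insert i S hi ih =>
    rw [Finset.sum_insert hi, Finset.sum_insert hi]
    exact (rank_add_le' _ _).trans (by gcongr)

/-- Rank of a matrix after multiplying rows and columns by scalars. -/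
theorem rank_scale_le {K : Type*} [Field K] {U V : Type*} [Fintype U] [Fintype V]
    (a : U → K) (b : V → K) (A : Matrix U V K) :
    (Matrix.of fun u v => a u * b v * A u v).rank ≤ A.rank := by
  classical
  have : (Matrix.of fun u v => a u * b v * A u v) =
      Matrix.diagonal a * (A * Matrix.diagonal b) := by
    ext u v
    rw [Matrix.diagonal_mul, Matrix.mul_diagonal, Matrix.of_apply]
    ring
  rw [this]
  exact (Matrix.rank_mul_le_right _ _).trans (Matrix.rank_mul_le_left _ _)

/-- Lower bound for the rank from a dual family. -/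
theorem card_le_rank {K : Type*} [Field K] {U V D : Type*} [Fintype U] [Fintype V] [Fintype D]
    [DecidableEq D] (A : Matrix U V K) (a : D → U → K) (c : D → V) (κ : K) (hκ : κ ≠ 0)
    (h : ∀ d d', ∑ u, a d u * A u (c d') = if d = d' then κ else 0) :
    Fintype.card D ≤ A.rank := by
  have h1 : (Matrix.of a) * (A.submatrix id c) = Matrix.diagonal (fun _ : D => κ) := by
    ext d d'
    rw [Matrix.mul_apply, Matrix.diagonal_apply]
    simpa using h d d'
  have h2 : (Matrix.diagonal (fun _ : D => κ)).rank = Fintype.card D := by
    apply Matrix.rank_of_isUnit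
    rw [Matrix.isUnit_iff_isUnit_det, Matrix.det_diagonal]
    simp [hκ]
  calc Fintype.card D = (Matrix.diagonal (fun _ : D => κ)).rank := h2.symm
    _ = ((Matrix.of a) * (A.submatrix id c)).rank := by rw [h1]
    _ ≤ (A.submatrix id c).rank := Matrix.rank_mul_le_right _ _
    _ ≤ A.rank := Matrix.rank_submatrix_le _ _ _

/-- The rank method: if every row of the certificate gives a matrix of rank at most `ρ`,
the matrix has rank at most `s * ρ`. -/
theorem rank_le_of_certificate {K : Type*} [Field K] {U V : Type*} [Fintype U] [Fintype V]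
    {s : ℕ} (a : U → Fin s → K) (b : V → Fin s → K) (hab : ∀ u v, ∑ r, a u r * b v r = 1)
    (A : Matrix U V K) (ρ : ℕ)
    (h : ∀ r, (Matrix.of fun u v => a u r * b v r * A u v).rank ≤ ρ) :
    A.rank ≤ s * ρ := by
  have : A = ∑ r, Matrix.of fun u v => a u r * b v r * A u v := by
    ext u v
    rw [Matrix.sum_apply]
    simp only [Matrix.of_apply]
    rw [← Finset.sum_mul, hab, one_mul]
  rw [this]
  refine (rank_sum_le' _ _).trans ?_
  refine (Finset.sum_le_card_nsmul _ _ ρ fun r _ => h r).trans ?_
  simp

end Pool.Agent.Helper80K2
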